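import Mathlib

namespace Pool.Agent.H54.GpI

open Finset

variable {G L : Type*} [Fintype G] [DecidableEq G] [Fintype L] [DecidableEq L]

/-- The bijections from `G` to `L` that agree with `p0` on `X`. -/
def Ext (X : Finset G) (p0 : G ≃ L) : Finset (G ≃ L) :=
  univ.filter (fun p => ∀ g ∈ X, p g = p0 g)

theorem mem_Ext {X : Finset G} {p0 p : G ≃ L} : p ∈ Ext X p0 ↔ ∀ g ∈ X, p g = p0 g := by
  simp [Ext]

theorem self_mem_Ext (X : Finset G) (p0 : G ≃ L) : p0 ∈ Ext X p0 := by
  simp [mem_Ext]

theorem Ext_nonempty (X : Finset G) (p0 : G ≃ L) : 0 < (Ext X p0).card :=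
  Finset.card_pos.mpr ⟨p0, self_mem_Ext X p0⟩

theorem card_Ext (X : Finset G) (p0 : G ≃ L) :
    (Ext X p0).card = (Fintype.card G - X.card).factorial := by
  classical
  have e1 : {p : G ≃ L // p ∈ Ext X p0} ≃
      {f : Equiv.Perm G // ∀ a, ¬ (a ∉ X) → f a = a} :=
    { toFun := fun p => ⟨p.1.trans p0.symm, by
        intro a ha
        have ha' : a ∈ X := by simpa using ha
        have h := mem_Ext.mp p.2 a ha'
        simp [h]⟩
      invFun := fun f => ⟨f.1.trans p0, by
        rw [mem_Ext]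
        intro g hg
        have h := f.2 g (by simpa using hg)
        simp [h]⟩
      left_inv := by
        intro p
        apply Subtype.ext
        ext g
        simp
      right_inv := by
        intro f
        apply Subtype.ext
        ext g
        simp }
  have h1 : (Ext X p0).card = Fintype.card {p : G ≃ L // p ∈ Ext X p0} := by
    rw [Fintype.card_coe]
  have h2 : Fintype.card {p : G ≃ L // p ∈ Ext X p0} =
      Fintype.card (Equiv.Perm {a : G // a ∉ X}) :=
    Fintype.card_congr (e1.trans (Equiv.Perm.subtypeEquivSubtypePerm (fun a => a ∉ X)).symm)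
  rw [h1, h2, Fintype.card_perm]
  congr 1
  rw [Fintype.card_subtype_compl]
  simp

/-- Revealing one value or one preimage: averaging over disjoint events `p q.1 = q.2`. -/
theorem reveal (X : Finset G) (p0 : G ≃ L) (I : Finset (G × L))
    (hI : ∀ q ∈ I, q.1 ∉ X ∧ ∀ g ∈ X, p0 g ≠ q.2)
    (hdis : ∀ q ∈ I, ∀ q' ∈ I, q ≠ q' → (q.1 = q'.1 ∨ q.2 = q'.2))
    (Q : (G ≃ L) → Prop) [DecidablePred Q] (c : ℝ) (hc : 0 ≤ c)
    (h : ∀ q ∈ I, ∀ p1 ∈ Ext X p0, p1 q.1 = q.2 →
      c * ((Ext (insert q.1 X) p1).card : ℝ) ≤ (((Ext (insert q.1 X) p1).filter Q).card : ℝ)) :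
    (I.card : ℝ) / Fintype.card G * (c * (Ext X p0).card) ≤ (((Ext X p0).filter Q).card : ℝ) := by
  classical
  rcases I.eq_empty_or_nonempty with hemp | ⟨q0, hq0⟩
  · subst hemp
    simp
  -- the chosen extension
  let P : G × L → (G ≃ L) := fun q => p0.trans (Equiv.swap (p0 q.1) q.2)
  have hP1 : ∀ q, P q q.1 = q.2 := by
    intro q
    simp [P]
  have hPX : ∀ q ∈ I, ∀ g ∈ X, P q g = p0 g := by
    intro q hq g hg
    obtain ⟨h1, h2⟩ := hI q hq
    simp only [P, Equiv.trans_apply]
    apply Equiv.swap_apply_of_ne_of_ne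
    · intro he
      exact h1 ((p0.injective he) ▸ hg)
    · exact h2 g hg
  have hPE : ∀ q ∈ I, P q ∈ Ext X p0 := fun q hq => mem_Ext.mpr (hPX q hq)
  -- the disjoint pieces
  let A : G × L → Finset (G ≃ L) := fun q => (Ext (insert q.1 X) (P q)).filter Q
  have hAsub : ∀ q ∈ I, A q ⊆ (Ext X p0).filter Q := by
    intro q hq p hp
    simp only [A, mem_filter, mem_Ext] at hp ⊢
    refine ⟨fun g hg => ?_, hp.2⟩
    rw [hp.1 g (mem_insert_of_mem hg), hPX q hq g hg]
  have hAdis : ∀ q ∈ I, ∀ q' ∈ I, q ≠ q' → Disjoint (A q) (A q') := by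
    intro q hq q' hq' hne
    rw [Finset.disjoint_left]
    intro p hp hp'
    simp only [A, mem_filter, mem_Ext] at hp hp'
    have e1 : p q.1 = q.2 := by rw [hp.1 q.1 (mem_insert_self _ _), hP1]
    have e2 : p q'.1 = q'.2 := by rw [hp'.1 q'.1 (mem_insert_self _ _), hP1]
    rcases hdis q hq q' hq' hne with h1 | h2
    · apply hne
      refine Prod.ext h1 ?_
      rw [← e1, ← e2, h1]
    · apply hne
      refine Prod.ext ?_ h2
      apply p.injective
      rw [e1, e2, h2]
  have hsum : ∑ q ∈ I, (A q).card ≤ ((Ext X p0).filter Q).card := by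
    rw [← Finset.card_biUnion hAdis]
    apply Finset.card_le_card
    intro p hp
    rw [mem_biUnion] at hp
    obtain ⟨q, hq, hpq⟩ := hp
    exact hAsub q hq hpq
  have hXlt : X.card < Fintype.card G := by
    rw [← Finset.card_univ]
    apply Finset.card_lt_card
    rw [Finset.ssubset_univ_iff]
    intro he
    have := (hI q0 hq0).1
    rw [he] at this
    exact this (mem_univ _)
  obtain ⟨m, hm⟩ : ∃ m, Fintype.card G = X.card + m + 1 := ⟨Fintype.card G - X.card - 1, by omega⟩
  have hcard : ∀ q ∈ I, (Ext (insert q.1 X) (P q)).card = m.factorial := by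
    intro q hq
    rw [card_Ext, card_insert_of_notMem (hI q hq).1]
    congr 1
    omega
  have hcard0 : (Ext X p0).card = (m + 1).factorial := by
    rw [card_Ext]
    congr 1
    omega
  have hlow : (I.card : ℝ) * (c * (m.factorial : ℝ)) ≤ ∑ q ∈ I, ((A q).card : ℝ) := by
    rw [← nsmul_eq_mul]
    apply Finset.card_nsmul_le_sum
    intro q hq
    have := h q hq (P q) (hPE q hq) (hP1 q)
    rw [hcard q hq] at this
    exact this
  have hsum' : ∑ q ∈ I, ((A q).card : ℝ) ≤ (((Ext X p0).filter Q).card : ℝ) := by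
    exact_mod_cast hsum
  refine le_trans ?_ (hlow.trans hsum')
  rw [hcard0, Nat.factorial_succ]
  have hN : (0 : ℝ) < Fintype.card G := by
    rw [hm]; positivity
  have hle : ((m + 1 : ℕ) : ℝ) ≤ (Fintype.card G : ℝ) := by
    exact_mod_cast (by omega : m + 1 ≤ Fintype.card G)
  rw [div_mul_eq_mul_div, div_le_iff₀ hN]
  push_cast
  push_cast at hle
  have hf : (0 : ℝ) ≤ (m.factorial : ℝ) := by positivity
  have hIc : (0 : ℝ) ≤ (I.card : ℝ) := by positivity
  calc (I.card : ℝ) * (c * (((m : ℝ) + 1) * m.factorial))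
      = ((I.card : ℝ) * (c * m.factorial)) * ((m : ℝ) + 1) := by ring
    _ ≤ ((I.card : ℝ) * (c * m.factorial)) * (Fintype.card G : ℝ) := by
        apply mul_le_mul_of_nonneg_left hle
        positivity

/-- Summing a relative bound over the fibres of a map. -/
theorem fiber_bound {α β : Type*} [DecidableEq β] (U : Finset α) (κ : α → β)
    (T : α → Prop) [DecidablePred T] (r : ℝ)
    (h : ∀ a ∈ U, (((U.filter (fun b => κ b = κ a)).filter T).card : ℝ) ≤
      r * ((U.filter (fun b => κ b = κ a)).card : ℝ)) :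
    ((U.filter T).card : ℝ) ≤ r * (U.card : ℝ) := by
  classical
  have h1 : (U.filter T).card = ∑ v ∈ U.image κ, ((U.filter T).filter (fun b => κ b = v)).card := by
    apply Finset.card_eq_sum_card_fiberwise
    intro b hb
    simp only [coe_filter, Set.mem_ofPred_eq] at hb
    simp only [coe_image, Set.mem_image, mem_coe]
    exact ⟨b, hb.1, rfl⟩
  have h2 : U.card = ∑ v ∈ U.image κ, (U.filter (fun b => κ b = v)).card := by
    apply Finset.card_eq_sum_card_fiberwise
    intro b hb
    simp only [mem_coe] at hb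
    simp only [coe_image, Set.mem_image, mem_coe]
    exact ⟨b, hb, rfl⟩
  rw [h1, h2]
  push_cast
  rw [Finset.mul_sum]
  apply Finset.sum_le_sum
  intro v hv
  rw [mem_image] at hv
  obtain ⟨a, ha, rfl⟩ := hv
  have := h a ha
  rw [Finset.filter_comm] at this
  exact this

end Pool.Agent.H54.GpI
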