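import Mathlib

namespace Pool.Agent.H54.GpI

open Finset

/-- Averaging: a homomorphism from a family that is injective on a small set. -/
theorem exists_injOn {A B ι : Type*} [AddCommGroup A] [AddCommGroup B] [DecidableEq A]
    [DecidableEq B] [DecidableEq ι]
    (W : Finset ι) (φ : ι → (A →+ B)) (m : ℕ)
    (hm : ∀ δ : A, δ ≠ 0 → (W.filter (fun w => φ w δ = 0)).card ≤ m)
    (X : Finset A) (h : X.card ^ 2 * m < W.card) :
    ∃ w ∈ W, Set.InjOn (φ w) (X : Set A) := by
  by_contra hcon
  push Not at hcon
  have hsub : W ⊆ ((X ×ˢ X).filter (fun q => q.1 ≠ q.2)).biUnion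
      (fun q => W.filter (fun w => φ w (q.1 - q.2) = 0)) := by
    intro w hw
    have h1 := hcon w hw
    rw [Set.InjOn] at h1
    push Not at h1
    obtain ⟨a, ha, b, hb, hab, hne⟩ := h1
    rw [mem_biUnion]
    refine ⟨(a, b), ?_, ?_⟩
    · rw [mem_filter, mem_product]
      exact ⟨⟨ha, hb⟩, hne⟩
    · rw [mem_filter]
      refine ⟨hw, ?_⟩
      simp only
      rw [map_sub, hab, sub_self]
  have h2 := Finset.card_le_card hsub
  have h3 : (((X ×ˢ X).filter (fun q => q.1 ≠ q.2)).biUnion
      (fun q => W.filter (fun w => φ w (q.1 - q.2) = 0))).card ≤ X.card ^ 2 * m := by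
    refine le_trans Finset.card_biUnion_le ?_
    refine le_trans (Finset.sum_le_card_nsmul _ _ m (fun q hq => ?_)) ?_
    · rw [mem_filter] at hq
      exact hm _ (sub_ne_zero.mpr hq.2)
    · rw [smul_eq_mul]
      apply Nat.mul_le_mul_right
      refine le_trans (Finset.card_filter_le _ _) ?_
      rw [card_product]
      rw [sq]
  omega

theorem z4_cases : ∀ x : ZMod 4, x = 0 ∨ x = 1 ∨ x = 1 + 1 ∨ x = -1 := by decide

theorem z2_cases : ∀ x : ZMod 2, x = 0 ∨ x = 1 := by decide

/-- The common direct factor. -/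
abbrev KK (b c : ℕ) := (Fin b → ZMod 4) × (Fin c → ZMod 2)

/-- First group: `Z_4 x K`. -/
abbrev GA (b c : ℕ) := ZMod 4 × KK b c

/-- Second group: `Z_2 x Z_2 x K`. -/
abbrev GB (b c : ℕ) := (ZMod 2 × ZMod 2) × KK b c

theorem card_KK (b c : ℕ) : Fintype.card (KK b c) = 4 ^ b * 2 ^ c := by
  simp

theorem card_GA (b c : ℕ) : Fintype.card (GA b c) = 2 ^ (2 * b + c + 2) := by
  rw [Fintype.card_prod, card_KK]
  simp only [ZMod.card]
  rw [pow_add, pow_add, pow_mul]
  norm_num
  ring

theorem card_GB (b c : ℕ) : Fintype.card (GB b c) = 2 ^ (2 * b + c + 2) := by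
  rw [Fintype.card_prod, card_KK, Fintype.card_prod]
  simp only [ZMod.card]
  rw [pow_add, pow_add, pow_mul]
  norm_num
  ring

theorem four_KK (b c : ℕ) (w : KK b c) : w + w + w + w = 0 := by
  have h4 : ∀ x : ZMod 4, x + x + x + x = 0 := by decide
  have h2 : ∀ x : ZMod 2, x + x + x + x = 0 := by decide
  apply Prod.ext
  · funext i
    exact h4 (w.1 i)
  · funext i
    exact h2 (w.2 i)

/-- Fibres of doubling are no larger than the kernel. -/
theorem fibre_le {A : Type*} [AddCommGroup A] [Fintype A] [DecidableEq A] (g : A) :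
    (univ.filter (fun u : A => u + u = g)).card ≤ (univ.filter (fun u : A => u + u = 0)).card := by
  rcases (univ.filter (fun u : A => u + u = g)).eq_empty_or_nonempty with h | ⟨u0, hu0⟩
  · rw [h]; simp
  · rw [mem_filter] at hu0
    apply Finset.card_le_card_of_injOn (fun u => u - u0)
    · intro u hu
      simp only [coe_filter, mem_univ, true_and, Set.mem_ofPred_eq] at hu ⊢
      have h1 := hu0.2
      calc u - u0 + (u - u0) = (u + u) - (u0 + u0) := by abel
        _ = 0 := by rw [hu, h1, sub_self]
    · intro a _ b _ hab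
      simpa using hab

theorem ker_prod {A B : Type*} [AddCommGroup A] [AddCommGroup B] [Fintype A] [Fintype B]
    [DecidableEq A] [DecidableEq B] :
    (univ.filter (fun u : A × B => u + u = 0)).card =
      (univ.filter (fun u : A => u + u = 0)).card * (univ.filter (fun u : B => u + u = 0)).card := by
  rw [← card_product]
  congr 1
  ext u
  simp [Prod.ext_iff]

theorem ker_KK (b c : ℕ) : (univ.filter (fun u : KK b c => u + u = 0)).card = 2 ^ (b + c) := by
  rw [ker_prod]
  have h1 : (univ.filter (fun u : Fin b → ZMod 4 => u + u = 0)) =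
      Fintype.piFinset (fun _ => univ.filter (fun x : ZMod 4 => x + x = 0)) := by
    ext u
    simp only [mem_filter, mem_univ, true_and, Fintype.mem_piFinset, funext_iff]
    rfl
  have h2 : (univ.filter (fun u : Fin c → ZMod 2 => u + u = 0)) = univ := by
    apply Finset.filter_true_of_mem
    intro u _
    funext i
    have : ∀ x : ZMod 2, x + x = 0 := by decide
    exact this (u i)
  have h3 : (univ.filter (fun x : ZMod 4 => x + x = 0)).card = 2 := by decide
  rw [h1, h2, Fintype.card_piFinset_const, h3, Finset.card_univ]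
  simp [pow_add]

theorem ker_GA (b c : ℕ) : (univ.filter (fun u : GA b c => u + u = 0)).card = 2 ^ (b + c + 1) := by
  rw [ker_prod, ker_KK]
  have h3 : (univ.filter (fun x : ZMod 4 => x + x = 0)).card = 2 := by decide
  rw [h3, pow_succ]; ring

theorem ker_GB (b c : ℕ) : (univ.filter (fun u : GB b c => u + u = 0)).card = 2 ^ (b + c + 2) := by
  rw [ker_prod, ker_KK]
  have h3 : (univ.filter (fun x : ZMod 2 × ZMod 2 => x + x = 0)).card = 4 := by decide
  rw [h3, pow_add]; ring

theorem not_iso (b c : ℕ) : IsEmpty (GA b c ≃+ GB b c) := by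
  refine ⟨fun e => ?_⟩
  have h : (univ.filter (fun u : GA b c => u + u = 0)).card =
      (univ.filter (fun u : GB b c => u + u = 0)).card := by
    apply Finset.card_bij (fun u _ => e u)
    · intro u hu
      simp only [mem_filter, mem_univ, true_and] at hu ⊢
      rw [← map_add, hu, map_zero]
    · intro u _ v _ huv
      exact e.injective huv
    · intro v hv
      simp only [mem_filter, mem_univ, true_and] at hv
      refine ⟨e.symm v, ?_, by simp⟩
      simp only [mem_filter, mem_univ, true_and]
      rw [← map_add, hv, map_zero]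
  rw [ker_GA, ker_GB] at h
  have := Nat.pow_right_injective (le_refl 2) h
  omega

/-- The homomorphism `Z_4 -> K` sending `1` to `w`. -/
def lift4 {b c : ℕ} (w : KK b c) : ZMod 4 →+ KK b c :=
  ZMod.lift 4 ⟨zmultiplesHom (KK b c) w, by
    have := four_KK b c w
    simp only [zmultiplesHom_apply]
    calc ((4 : ℕ) : ℤ) • w = w + w + w + w := by
          rw [natCast_zsmul]
          simp only [succ_nsmul, zero_nsmul, zero_add]
      _ = 0 := this⟩

theorem lift4_one {b c : ℕ} (w : KK b c) : lift4 w 1 = w := by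
  have h := ZMod.lift_coe 4 (⟨zmultiplesHom (KK b c) w, by
    have := four_KK b c w
    simp only [zmultiplesHom_apply]
    calc ((4 : ℕ) : ℤ) • w = w + w + w + w := by
          rw [natCast_zsmul]
          simp only [succ_nsmul, zero_nsmul, zero_add]
      _ = 0 := this⟩ : { f : ℤ →+ KK b c // f ((4 : ℕ) : ℤ) = 0 }) 1
  simp only [Int.cast_one] at h
  rw [lift4, h]
  simp

theorem embA (b c : ℕ) (X : Finset (GA b c)) (h : X.card ^ 2 * 2 ^ (b + c) < 4 ^ b * 2 ^ c) :
    ∃ φ : GA b c →+ GB b c, Set.InjOn φ (X : Set (GA b c)) := by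
  classical
  obtain ⟨w, _, hw⟩ := exists_injOn (A := GA b c) (B := GB b c) (univ : Finset (KK b c))
    (fun w => AddMonoidHom.prod (0 : GA b c →+ ZMod 2 × ZMod 2)
      (AddMonoidHom.snd (ZMod 4) (KK b c) - (lift4 w).comp (AddMonoidHom.fst (ZMod 4) (KK b c))))
    (2 ^ (b + c)) (by
      intro δ hδ
      obtain ⟨d0, d'⟩ := δ
      have hone : 1 ≤ 2 ^ (b + c) := Nat.one_le_two_pow
      have key : ∀ w : KK b c, (AddMonoidHom.prod (0 : GA b c →+ ZMod 2 × ZMod 2)
          (AddMonoidHom.snd (ZMod 4) (KK b c) -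
            (lift4 w).comp (AddMonoidHom.fst (ZMod 4) (KK b c)))) (d0, d') = 0 →
          lift4 w d0 = d' := by
        intro w hw
        have h2 := congrArg Prod.snd hw
        simp only [AddMonoidHom.prod_apply, AddMonoidHom.sub_apply, AddMonoidHom.comp_apply,
          AddMonoidHom.coe_snd, AddMonoidHom.coe_fst, Prod.snd_zero] at h2
        exact (sub_eq_zero.mp h2).symm
      have hd0 : d0 = 0 ∨ d0 = 1 ∨ d0 = 1 + 1 ∨ d0 = -1 := z4_cases d0
      rcases hd0 with h0 | h0 | h0 | h0
      · -- difference with trivial first coordinate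
        have : (univ.filter (fun w : KK b c => (AddMonoidHom.prod (0 : GA b c →+ ZMod 2 × ZMod 2)
          (AddMonoidHom.snd (ZMod 4) (KK b c) -
            (lift4 w).comp (AddMonoidHom.fst (ZMod 4) (KK b c)))) (d0, d') = 0)) = ∅ := by
          apply Finset.filter_eq_empty_iff.mpr
          intro w _ hw
          apply hδ
          have := key w hw
          rw [h0, map_zero] at this
          rw [h0, ← this]
          rfl
        rw [this]
        simp
      · refine le_trans (Finset.card_le_one.mpr ?_) hone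
        intro w1 hw1 w2 hw2
        rw [mem_filter] at hw1 hw2
        have e1 := key w1 hw1.2
        have e2 := key w2 hw2.2
        rw [h0, lift4_one] at e1 e2
        rw [e1, e2]
      · have hsub : (univ.filter (fun w : KK b c => (AddMonoidHom.prod
          (0 : GA b c →+ ZMod 2 × ZMod 2) (AddMonoidHom.snd (ZMod 4) (KK b c) -
            (lift4 w).comp (AddMonoidHom.fst (ZMod 4) (KK b c)))) (d0, d') = 0)) ⊆
            (univ.filter (fun w : KK b c => w + w = d')) := by
          intro w hw
          rw [mem_filter] at hw ⊢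
          have e1 := key w hw.2
          rw [h0, map_add, lift4_one] at e1
          exact ⟨hw.1, e1⟩
        refine le_trans (Finset.card_le_card hsub) ?_
        rw [← ker_KK]
        exact fibre_le d'
      · refine le_trans (Finset.card_le_one.mpr ?_) hone
        intro w1 hw1 w2 hw2
        rw [mem_filter] at hw1 hw2
        have e1 := key w1 hw1.2
        have e2 := key w2 hw2.2
        rw [h0, map_neg, lift4_one] at e1 e2
        have := e1.trans e2.symm
        exact neg_injective this)
    X (by rw [Finset.card_univ, card_KK]; exact h)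
  exact ⟨_, hw⟩

/-- The homomorphism `Z_2 -> A` sending `1` to an element of order dividing two. -/
def lift2 {A : Type*} [AddCommGroup A] (w : {w : A // w + w = 0}) : ZMod 2 →+ A :=
  ZMod.lift 2 ⟨zmultiplesHom A w.1, by
    simp only [zmultiplesHom_apply]
    calc ((2 : ℕ) : ℤ) • w.1 = w.1 + w.1 := by
          rw [natCast_zsmul]
          simp only [succ_nsmul, zero_nsmul, zero_add]
      _ = 0 := w.2⟩

theorem lift2_one {A : Type*} [AddCommGroup A] (w : {w : A // w + w = 0}) : lift2 w 1 = w.1 := by
  have h := ZMod.lift_coe 2 (⟨zmultiplesHom A w.1, by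
    simp only [zmultiplesHom_apply]
    calc ((2 : ℕ) : ℤ) • w.1 = w.1 + w.1 := by
          rw [natCast_zsmul]
          simp only [succ_nsmul, zero_nsmul, zero_add]
      _ = 0 := w.2⟩ : { f : ℤ →+ A // f ((2 : ℕ) : ℤ) = 0 }) 1
  simp only [Int.cast_one] at h
  rw [lift2, h]
  simp

theorem embB (b c : ℕ) (X : Finset (GB b c)) (h : X.card ^ 2 < 2 ^ (b + c)) :
    ∃ φ : GB b c →+ GA b c, Set.InjOn φ (X : Set (GB b c)) := by
  classical
  have h22 : (2 : ZMod 4) + 2 = 0 := by decide
  let j : ZMod 2 →+ ZMod 4 := lift2 ⟨2, h22⟩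
  have hj1 : j 1 = 2 := lift2_one _
  obtain ⟨w, _, hw⟩ := exists_injOn (A := GB b c) (B := GA b c)
    (univ : Finset {w : KK b c // w + w = 0})
    (fun w => AddMonoidHom.prod
      (j.comp ((AddMonoidHom.fst (ZMod 2) (ZMod 2)).comp
        (AddMonoidHom.fst (ZMod 2 × ZMod 2) (KK b c))))
      (AddMonoidHom.snd (ZMod 2 × ZMod 2) (KK b c) +
        (lift2 w).comp ((AddMonoidHom.snd (ZMod 2) (ZMod 2)).comp
          (AddMonoidHom.fst (ZMod 2 × ZMod 2) (KK b c)))))
    1 (by
      intro δ hδ
      obtain ⟨⟨a1, a2⟩, v⟩ := δ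
      have key : ∀ w : {w : KK b c // w + w = 0}, (AddMonoidHom.prod
          (j.comp ((AddMonoidHom.fst (ZMod 2) (ZMod 2)).comp
            (AddMonoidHom.fst (ZMod 2 × ZMod 2) (KK b c))))
          (AddMonoidHom.snd (ZMod 2 × ZMod 2) (KK b c) +
            (lift2 w).comp ((AddMonoidHom.snd (ZMod 2) (ZMod 2)).comp
              (AddMonoidHom.fst (ZMod 2 × ZMod 2) (KK b c))))) ((a1, a2), v) = 0 →
          j a1 = 0 ∧ v + lift2 w a2 = 0 := by
        intro w hw
        exact ⟨congrArg Prod.fst hw, congrArg Prod.snd hw⟩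
      apply Finset.card_le_one.mpr
      intro w1 hw1 w2 hw2
      rw [mem_filter] at hw1 hw2
      obtain ⟨e1, e2⟩ := key w1 hw1.2
      obtain ⟨f1, f2⟩ := key w2 hw2.2
      have ha1 : a1 = 0 := by
        have hh : a1 = 0 ∨ a1 = 1 := z2_cases a1
        rcases hh with h | h
        · exact h
        · exfalso
          rw [h, hj1] at e1
          exact absurd e1 (by decide)
      have ha2 : a2 = 0 ∨ a2 = 1 := z2_cases a2
      rcases ha2 with h | h
      · exfalso
        apply hδ
        rw [h, map_zero, add_zero] at e2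
        rw [ha1, h, e2]
        rfl
      · rw [h, lift2_one] at e2 f2
        apply Subtype.ext
        exact add_left_cancel (e2.trans f2.symm))
    X (by
      rw [Finset.card_univ, mul_one, Fintype.card_subtype, ker_KK]
      exact h)
  exact ⟨_, hw⟩

end Pool.Agent.H54.GpI
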