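import Pool.Agent.H.MP_c695c6_lc.helper54.Rounds
import Pool.Agent.H.MP_c695c6_lc.helper54.Groups

namespace Pool.Agent.H54.GpI

open Finset

/-- A predicate on tables that depends on at most `d` bits of the table. -/
def LocTab {k : ℕ} (d : ℕ) (g : ((Fin k → Bool) → (Fin k → Bool) → (Fin k → Bool)) → Prop) : Prop :=
  ∃ D : Finset ((Fin k → Bool) × (Fin k → Bool) × Fin k), D.card ≤ d ∧
    ∀ T T' : (Fin k → Bool) → (Fin k → Bool) → (Fin k → Bool),
      (∀ q ∈ D, T q.1 q.2.1 q.2.2 = T' q.1 q.2.1 q.2.2) → (g T ↔ g T')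

theorem half_pow (D : ℕ) (hD : 1 ≤ D) : (1 - 1 / (D : ℝ)) ^ D ≤ 1 / 2 := by
  have h1 : (1 - 1 / (D : ℝ)) ^ D ≤ Real.exp (-1) := by
    apply Real.one_sub_div_pow_le_exp_neg
    exact_mod_cast hD
  refine h1.trans ?_
  rw [Real.exp_neg]
  have h2 : (2 : ℝ) ≤ Real.exp 1 := by
    have := Real.add_one_le_exp (1 : ℝ)
    linarith
  rw [one_div]
  exact inv_anti₀ (by norm_num) h2

theorem cover_bound {G G' : Type*} [Fintype G] [DecidableEq G] [AddCommGroup G]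
    [Fintype G'] [DecidableEq G'] [AddCommGroup G']
    (k d S s : ℕ) (hG : Fintype.card G = 2 ^ k) (hG' : Fintype.card G' = 2 ^ k)
    (hs : ∀ g : G, (univ.filter (fun u : G => u + u = g)).card ≤ s)
    (hM : 8 ≤ k / 4 → 2 * ((2 ^ (k / 4 - 2)) ^ 3 + (2 ^ (k / 4 - 2)) ^ 2 * s) ≤ 2 ^ k)
    (hEmb : 8 ≤ k / 4 → ∀ X : Finset G, X.card ≤ 2 ^ (k / 4 - 2) →
      ∃ φ : G →+ G', Set.InjOn φ (X : Set G))
    (o : Fin k → Bool)
    (F : Fin S → Set (((Fin k → Bool) → (Fin k → Bool) → (Fin k → Bool)) → Prop))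
    (hF : ∀ i, ∀ g ∈ F i, LocTab d g)
    (hyes : ∀ π : G ≃ (Fin k → Bool), π 0 = o → ∃ i, ∀ g ∈ F i, g (tab π))
    (hno : ∀ σ : G' ≃ (Fin k → Bool), σ 0 = o → ∀ i, ∃ g ∈ F i, ¬ g (tab σ)) :
    2 ^ (2 ^ (k / 4) / (16 * d * 16 ^ d)) ≤ S := by
  classical
  -- a labeling with `0` labelled `o`
  obtain ⟨p0, hp0⟩ : ∃ p0 : G ≃ (Fin k → Bool), p0 0 = o := by
    have e : Fintype.card G = Fintype.card (Fin k → Bool) := by rw [hG]; simp
    let p := Fintype.equivOfCardEq e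
    refine ⟨p.trans (Equiv.swap (p 0) o), ?_⟩
    simp
  set m := 2 ^ (k / 4) / (16 * d * 16 ^ d) with hm
  rcases Nat.eq_zero_or_pos m with hm0 | hmpos
  · rw [hm0, pow_zero]
    obtain ⟨i, _⟩ := hyes p0 hp0
    exact Nat.succ_le_of_lt (lt_of_le_of_lt (Nat.zero_le _) i.2)
  · -- parameters
    have hd : 1 ≤ d := by
      rcases Nat.eq_zero_or_pos d with h | h
      · exfalso
        rw [hm, h] at hmpos
        simp at hmpos
      · exact h
    have hle : 16 * d * 16 ^ d ≤ 2 ^ (k / 4) := by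
      by_contra hcon
      rw [hm, Nat.div_eq_of_lt (by omega)] at hmpos
      exact absurd hmpos (lt_irrefl 0)
    have hq1 : 4 * (d + 1) ≤ k / 4 := by
      have h1 : 16 ^ (d + 1) ≤ 2 ^ (k / 4) := by
        calc 16 ^ (d + 1) = 16 * 1 * 16 ^ d := by rw [pow_succ]; ring
          _ ≤ 16 * d * 16 ^ d := by
            apply Nat.mul_le_mul_right
            exact Nat.mul_le_mul_left _ hd
          _ ≤ 2 ^ (k / 4) := hle
      have h2 : (2 : ℕ) ^ (4 * (d + 1)) ≤ 2 ^ (k / 4) := by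
        rw [pow_mul]
        exact h1
      exact (Nat.pow_le_pow_iff_right (by norm_num)).mp h2
    have hq8 : 8 ≤ k / 4 := by omega
    set q := k / 4 with hq
    set M := 2 ^ (q - 2) with hMdef
    have h4M : 4 * M = 2 ^ q := by
      rw [hMdef]
      have : q = (q - 2) + 2 := by omega
      conv_rhs => rw [this, pow_add]
      norm_num
      ring
    let t := 16 ^ d * m
    have ht1 : 1 ≤ t := Nat.mul_pos (by positivity) hmpos
    have ht : 16 * d * t ≤ 2 ^ q := by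
      calc 16 * d * (16 ^ d * m) = (2 ^ q / (16 * d * 16 ^ d)) * (16 * d * 16 ^ d) := by
            rw [hm]; ring
        _ ≤ 2 ^ q := Nat.div_mul_le_self _ _
    have hround : 1 + 3 * d * t ≤ M := by
      have h1 : 4 * (4 * (d * t)) ≤ 4 * M := by
        rw [h4M]
        calc 4 * (4 * (d * t)) = 16 * d * t := by ring
          _ ≤ 2 ^ q := ht
      have h2 : 4 * (d * t) ≤ M := by omega
      have h3 : 1 ≤ d * t := Nat.mul_pos hd ht1
      calc 1 + 3 * d * t = 1 + 3 * (d * t) := by ring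
        _ ≤ 4 * (d * t) := by omega
        _ ≤ M := h2
    have hk4 : 4 * q ≤ k := by omega
    have hM2 : (M + d) * 2 ^ (d + 1) ≤ 2 ^ k := by
      have h1 : M ≤ 2 ^ q := by omega
      have h2 : d ≤ 2 ^ q := by
        have : d < 2 ^ d := Nat.lt_two_pow_self
        have h3 : 2 ^ d ≤ 2 ^ q := Nat.pow_le_pow_right (by norm_num) (by omega)
        omega
      calc (M + d) * 2 ^ (d + 1) ≤ (2 ^ q + 2 ^ q) * 2 ^ (d + 1) :=
            Nat.mul_le_mul_right _ (by omega)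
        _ = 2 ^ (q + 1 + (d + 1)) := by rw [pow_add, pow_add, pow_one]; ring
        _ ≤ 2 ^ k := Nat.pow_le_pow_right (by norm_num) (by omega)
    have hsmall : ∀ i, (((Ext {(0 : G)} p0).filter (fun p => ∀ g ∈ F i, g (tab p))).card : ℝ) ≤
        (1 - (1 / 16 : ℝ) ^ d) ^ t * ((Ext {(0 : G)} p0).card : ℝ) := by
      intro i
      apply rounds (G' := G') k hG hG' o s M d hs (by rw [hG]; exact hM hq8) hM2 (hEmb hq8)
        (F i) (hF i) (fun σ hσ => hno σ hσ i) t {(0 : G)} p0 (by simp) hp0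
      rw [Finset.card_singleton]
      exact hround
    have hcov : ((Ext {(0 : G)} p0).card : ℝ) ≤
        ∑ i : Fin S, (((Ext {(0 : G)} p0).filter (fun p => ∀ g ∈ F i, g (tab p))).card : ℝ) := by
      have h1 : Ext {(0 : G)} p0 ⊆ (univ : Finset (Fin S)).biUnion
          (fun i => (Ext {(0 : G)} p0).filter (fun p => ∀ g ∈ F i, g (tab p))) := by
        intro p hp
        have hp' : p 0 = o := by
          rw [mem_Ext.mp hp 0 (by simp), hp0]
        obtain ⟨i, hi⟩ := hyes p hp'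
        rw [mem_biUnion]
        exact ⟨i, mem_univ _, mem_filter.mpr ⟨hp, hi⟩⟩
      have h2 := (Finset.card_le_card h1).trans Finset.card_biUnion_le
      exact_mod_cast h2
    have hpos : (0 : ℝ) < ((Ext {(0 : G)} p0).card : ℝ) := by
      exact_mod_cast Ext_nonempty {(0 : G)} p0
    have hbase : (1 - (1 / 16 : ℝ) ^ d) ^ t ≤ (1 / 2) ^ m := by
      have h1 : (1 - (1 / 16 : ℝ) ^ d) ^ t = ((1 - 1 / ((16 ^ d : ℕ) : ℝ)) ^ (16 ^ d)) ^ m := by
        rw [← pow_mul]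
        congr 1
        push_cast
        rw [one_div, one_div, inv_pow]
      rw [h1]
      apply pow_le_pow_left₀ _ (half_pow (16 ^ d) (Nat.one_le_pow _ _ (by norm_num)))
      apply pow_nonneg
      have : (1 : ℝ) ≤ ((16 ^ d : ℕ) : ℝ) := by
        exact_mod_cast (Nat.one_le_pow d 16 (by norm_num))
      rw [sub_nonneg, div_le_one (by linarith)]
      exact this
    have hfin : (1 : ℝ) ≤ (S : ℝ) * (1 / 2) ^ m := by
      have h1 : ((Ext {(0 : G)} p0).card : ℝ) ≤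
          (S : ℝ) * ((1 / 2) ^ m * ((Ext {(0 : G)} p0).card : ℝ)) := by
        refine hcov.trans ?_
        have h2 := Finset.sum_le_card_nsmul (univ : Finset (Fin S))
          (fun i => (((Ext {(0 : G)} p0).filter (fun p => ∀ g ∈ F i, g (tab p))).card : ℝ))
          ((1 / 2) ^ m * ((Ext {(0 : G)} p0).card : ℝ)) (fun i _ =>
            (hsmall i).trans (mul_le_mul_of_nonneg_right hbase hpos.le))
        simpa using h2
      have h3 : 1 * ((Ext {(0 : G)} p0).card : ℝ) ≤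
          ((S : ℝ) * (1 / 2) ^ m) * ((Ext {(0 : G)} p0).card : ℝ) := by
        rw [one_mul, mul_assoc]
        exact h1
      exact le_of_mul_le_mul_right h3 hpos
    have h5 : (2 : ℝ) ^ m ≤ S := by
      have h6 : (S : ℝ) * (1 / 2) ^ m = S / 2 ^ m := by
        rw [one_div, inv_pow]; rfl
      rw [h6, le_div_iff₀ (by positivity), one_mul] at hfin
      exact hfin
    exact_mod_cast h5

/-- The parameters `b`, `c` with `k = 2 b + c + 2`. -/
theorem params (k : ℕ) (hk : 2 ≤ k) : 2 * (k / 2 - 1) + k % 2 + 2 = k := by omega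

theorem arith (k b c s : ℕ) (hk : 2 * b + c + 2 = k) (hc : c ≤ 1) (hs : s ≤ 2 ^ (b + c + 2))
    (h8 : 8 ≤ k / 4) : 2 * ((2 ^ (k / 4 - 2)) ^ 3 + (2 ^ (k / 4 - 2)) ^ 2 * s) ≤ 2 ^ k := by
  set q := k / 4 with hq
  have h2q : 2 * q ≤ b + 1 := by omega
  have h1 : (2 ^ (q - 2)) ^ 3 ≤ 2 ^ (k - 2) := by
    rw [← pow_mul]
    exact Nat.pow_le_pow_right (by norm_num) (by omega)
  have h2 : (2 ^ (q - 2)) ^ 2 * s ≤ 2 ^ (k - 2) := by
    calc (2 ^ (q - 2)) ^ 2 * s ≤ (2 ^ (q - 2)) ^ 2 * 2 ^ (b + c + 2) := Nat.mul_le_mul_left _ hs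
      _ = 2 ^ ((q - 2) * 2 + (b + c + 2)) := by rw [← pow_mul, ← pow_add]
      _ ≤ 2 ^ (k - 2) := Nat.pow_le_pow_right (by norm_num) (by omega)
  have h3 : 4 * 2 ^ (k - 2) = 2 ^ k := by
    have : k = (k - 2) + 2 := by omega
    conv_rhs => rw [this, pow_add]
    norm_num
    ring
  omega

theorem sepAB (k b c : ℕ) (hk : 2 * b + c + 2 = k) (hc : c ≤ 1) (d S : ℕ) (o : Fin k → Bool)
    (F : Fin S → Set (((Fin k → Bool) → (Fin k → Bool) → (Fin k → Bool)) → Prop))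
    (hF : ∀ i, ∀ g ∈ F i, LocTab d g)
    (hyes : ∀ π : GA b c ≃ (Fin k → Bool), π 0 = o → ∃ i, ∀ g ∈ F i, g (tab π))
    (hno : ∀ σ : GB b c ≃ (Fin k → Bool), σ 0 = o → ∀ i, ∃ g ∈ F i, ¬ g (tab σ)) :
    2 ^ (2 ^ (k / 4) / (16 * d * 16 ^ d)) ≤ S := by
  apply cover_bound (G := GA b c) (G' := GB b c) k d S (2 ^ (b + c + 1)) (by rw [card_GA, hk])
    (by rw [card_GB, hk]) (fun g => (fibre_le g).trans (le_of_eq (ker_GA b c)))
    (fun h8 => arith k b c _ hk hc (Nat.pow_le_pow_right (by norm_num) (by omega)) h8)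
    _ o F hF hyes hno
  intro h8 X hX
  apply embA
  have h2q : 2 * (k / 4) ≤ b + 1 := by omega
  calc X.card ^ 2 * 2 ^ (b + c) ≤ (2 ^ (k / 4 - 2)) ^ 2 * 2 ^ (b + c) :=
        Nat.mul_le_mul_right _ (Nat.pow_le_pow_left hX 2)
    _ = 2 ^ ((k / 4 - 2) * 2 + (b + c)) := by rw [← pow_mul, ← pow_add]
    _ < 2 ^ (2 * b + c) := Nat.pow_lt_pow_right (by norm_num) (by omega)
    _ = 4 ^ b * 2 ^ c := by rw [pow_add, pow_mul]; norm_num

theorem sepBA (k b c : ℕ) (hk : 2 * b + c + 2 = k) (hc : c ≤ 1) (d S : ℕ) (o : Fin k → Bool)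
    (F : Fin S → Set (((Fin k → Bool) → (Fin k → Bool) → (Fin k → Bool)) → Prop))
    (hF : ∀ i, ∀ g ∈ F i, LocTab d g)
    (hyes : ∀ π : GB b c ≃ (Fin k → Bool), π 0 = o → ∃ i, ∀ g ∈ F i, g (tab π))
    (hno : ∀ σ : GA b c ≃ (Fin k → Bool), σ 0 = o → ∀ i, ∃ g ∈ F i, ¬ g (tab σ)) :
    2 ^ (2 ^ (k / 4) / (16 * d * 16 ^ d)) ≤ S := by
  apply cover_bound (G := GB b c) (G' := GA b c) k d S (2 ^ (b + c + 2)) (by rw [card_GB, hk])
    (by rw [card_GA, hk]) (fun g => (fibre_le g).trans (le_of_eq (ker_GB b c)))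
    (fun h8 => arith k b c _ hk hc le_rfl h8)
    _ o F hF hyes hno
  intro h8 X hX
  apply embB
  have h2q : 2 * (k / 4) ≤ b + 1 := by omega
  calc X.card ^ 2 ≤ (2 ^ (k / 4 - 2)) ^ 2 := Nat.pow_le_pow_left hX 2
    _ = 2 ^ ((k / 4 - 2) * 2) := by rw [← pow_mul]
    _ < 2 ^ (b + c) := Nat.pow_lt_pow_right (by norm_num) (by omega)

end Pool.Agent.H54.GpI
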