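import Pool.Agent.H.MP_c695c6_lc.helper54.Count

namespace Pool.Agent.H54.GpI

open Finset

/-- The multiplication table induced on the label set `L` by a labeling `p : G ≃ L`. -/
def tab {G L : Type*} [AddCommGroup G] (p : G ≃ L) (x y : L) : L := p (p.symm x + p.symm y)

/-- `p` carries sums of elements of `X` to the operation `R` in a well-defined way. -/
def Freiman {G L : Type*} [AddCommGroup G] (R : L → L → L) (X : Finset G) (p : G ≃ L) : Prop :=
  ∀ a ∈ X, ∀ b ∈ X, ∀ a' ∈ X, ∀ b' ∈ X, a + b = a' + b' → R (p a) (p b) = R (p a') (p b')

section
variable {G L : Type*} [Fintype G] [DecidableEq G] [Fintype L] [DecidableEq L] [AddCommGroup G]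

theorem phase1 (R : L → L → L) (hR : ∀ x y, R x y = R y x) (s M : ℕ)
    (hs : ∀ g : G, (univ.filter (fun u : G => u + u = g)).card ≤ s)
    (hM : 2 * (M ^ 3 + M ^ 2 * s) ≤ Fintype.card G)
    (Q : (G ≃ L) → Prop) [DecidablePred Q] (c : ℝ) (hc : 0 ≤ c) (Y : List L) :
    ∀ (X : Finset G) (p0 : G ≃ L), X.card + Y.length ≤ M → Freiman R X p0 →
    (∀ (X' : Finset G) (p1 : G ≃ L), X ⊆ X' → p1 ∈ Ext X p0 → X'.card ≤ X.card + Y.length →
      (∀ y ∈ Y, p1.symm y ∈ X') → Freiman R X' p1 →
      c * ((Ext X' p1).card : ℝ) ≤ (((Ext X' p1).filter Q).card : ℝ)) →
    c * (1 / 2) ^ Y.length * ((Ext X p0).card : ℝ) ≤ (((Ext X p0).filter Q).card : ℝ) := by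
  induction Y with
  | nil =>
    intro X p0 _ hF h
    have := h X p0 (Finset.Subset.refl X) (self_mem_Ext X p0) (by simp) (by simp) hF
    simpa using this
  | cons y Y ih =>
    intro X p0 hcard hF h
    simp only [List.length_cons] at hcard h ⊢
    by_cases hy : p0.symm y ∈ X
    · have h1 := ih X p0 (by omega) hF (by
        intro X' p1 hX hp1 hc1 hY hF1
        apply h X' p1 hX hp1 (by omega) _ hF1
        intro y' hy'
        rcases List.mem_cons.mp hy' with rfl | hy'
        · have h2 := mem_Ext.mp hp1 _ hy
          have h3 : p1.symm y' = p0.symm y' := by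
            rw [Equiv.symm_apply_eq, h2]; simp
          rw [h3]
          exact hX hy
        · exact hY y' hy')
      refine le_trans ?_ h1
      apply mul_le_mul_of_nonneg_right _ (by positivity)
      rw [pow_succ]
      have h4 : (0 : ℝ) ≤ c * (1 / 2) ^ Y.length := by positivity
      nlinarith
    · -- the bad set
      let Bad : Finset G := (X ×ˢ X ×ˢ X).image (fun t => t.1 + t.2.1 - t.2.2) ∪
        (X ×ˢ X).biUnion (fun t => univ.filter (fun u => u + u = t.1 + t.2))
      have hBadcard : Bad.card ≤ M ^ 3 + M ^ 2 * s := by
        have hXM : X.card ≤ M := by omega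
        have h1 : ((X ×ˢ X ×ˢ X).image (fun t : G × G × G => t.1 + t.2.1 - t.2.2)).card ≤ M ^ 3 := by
          refine le_trans Finset.card_image_le ?_
          rw [card_product, card_product]
          calc X.card * (X.card * X.card) ≤ M * (M * M) :=
                Nat.mul_le_mul hXM (Nat.mul_le_mul hXM hXM)
            _ = M ^ 3 := by ring
        have h2 : ((X ×ˢ X).biUnion (fun t : G × G => univ.filter (fun u => u + u = t.1 + t.2))).card
            ≤ M ^ 2 * s := by
          refine le_trans Finset.card_biUnion_le ?_
          refine le_trans (Finset.sum_le_card_nsmul _ _ s (fun t _ => hs _)) ?_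
          rw [card_product, smul_eq_mul]
          apply Nat.mul_le_mul_right
          calc X.card * X.card ≤ M * M := Nat.mul_le_mul hXM hXM
            _ = M ^ 2 := by ring
        exact le_trans (Finset.card_union_le _ _) (Nat.add_le_add h1 h2)
      have hXBad : ∀ g ∈ X, g ∈ Bad := by
        intro g hg
        apply mem_union_left
        rw [mem_image]
        exact ⟨(g, g, g), by simp [hg], by simp⟩
      have hBad1 : ∀ u, u ∉ Bad → ∀ a ∈ X, ∀ b ∈ X, ∀ b' ∈ X, u ≠ a + b - b' := by
        intro u hu a ha b hb b' hb' he
        apply hu
        apply mem_union_left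
        rw [mem_image]
        exact ⟨(a, b, b'), by simp [ha, hb, hb'], he.symm⟩
      have hBad2 : ∀ u, u ∉ Bad → ∀ a ∈ X, ∀ b ∈ X, u + u ≠ a + b := by
        intro u hu a ha b hb he
        apply hu
        apply mem_union_right
        rw [mem_biUnion]
        exact ⟨(a, b), by simp [ha, hb], by simpa using he⟩
      let B : Finset G := univ \ Bad
      have hBmem : ∀ u ∈ B, u ∉ Bad := by
        intro u hu
        simpa [B] using hu
      have hBcard : Fintype.card G ≤ 2 * B.card := by
        have h1 : B.card = Fintype.card G - Bad.card := by
          rw [Finset.card_sdiff_of_subset (subset_univ _), Finset.card_univ]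
        omega
      let I : Finset (G × L) := B.image (fun u => (u, y))
      have hIcard : I.card = B.card := by
        apply Finset.card_image_of_injective
        intro a b hab
        exact (Prod.mk.inj hab).1
      have hImem : ∀ q ∈ I, q.1 ∈ B ∧ q.2 = y := by
        intro q hq
        rw [mem_image] at hq
        obtain ⟨u, hu, rfl⟩ := hq
        exact ⟨hu, rfl⟩
      have hrev := reveal X p0 I (by
          intro q hq
          obtain ⟨h1, h2⟩ := hImem q hq
          refine ⟨fun hX => hBmem _ h1 (hXBad _ hX), ?_⟩
          intro g hg he
          apply hy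
          rw [h2] at he
          rw [← he]
          simpa using hg)
        (by
          intro q hq q' hq' _
          right
          rw [(hImem q hq).2, (hImem q' hq').2])
        Q (c * (1 / 2) ^ Y.length) (by positivity)
        (by
          intro q hq p1 hp1 hp1q
          obtain ⟨hqB, hqy⟩ := hImem q hq
          have hqBad := hBmem _ hqB
          have hqX : q.1 ∉ X := fun hX => hqBad (hXBad _ hX)
          have hp1X := mem_Ext.mp hp1
          apply ih (insert q.1 X) p1
          · rw [card_insert_of_notMem hqX]; omega
          · -- Freiman for the extended set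
            intro a ha b hb a' ha' b' hb' he
            rw [mem_insert] at ha hb ha' hb'
            rcases ha with ha | ha <;> rcases hb with hb | hb <;>
              rcases ha' with ha' | ha' <;> rcases hb' with hb' | hb'
            -- 16 cases
            · rw [ha, hb, ha', hb']
            · exfalso
              rw [ha, hb, ha'] at he
              have : q.1 = b' := by simpa using he
              exact hqX (this ▸ hb')
            · exfalso
              rw [ha, hb, hb'] at he
              have : q.1 = a' := by simpa using he
              exact hqX (this ▸ ha')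
            · exfalso
              rw [ha, hb] at he
              exact hBad2 _ hqBad _ ha' _ hb' he
            · exfalso
              rw [ha, ha', hb'] at he
              have : b = q.1 := by simpa using he
              exact hqX (this ▸ hb)
            · rw [ha, ha'] at he
              have : b = b' := by simpa using he
              rw [ha, ha', this]
            · rw [ha, hb'] at he
              have : b = a' := by
                rw [add_comm a' q.1] at he
                simpa using he
              rw [ha, hb', this, hR]
            · exfalso
              rw [ha] at he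
              exact hBad1 _ hqBad _ ha' _ hb' _ hb (eq_sub_of_add_eq he)
            · exfalso
              rw [hb, ha', hb'] at he
              have : a = q.1 := by simpa using he
              exact hqX (this ▸ ha)
            · rw [hb, ha'] at he
              have : a = b' := by
                rw [add_comm a q.1] at he
                simpa using he
              rw [hb, ha', this, hR]
            · rw [hb, hb'] at he
              have : a = a' := by simpa using he
              rw [hb, hb', this]
            · exfalso
              rw [hb] at he
              exact hBad1 _ hqBad _ ha' _ hb' _ ha (eq_sub_of_add_eq' he)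
            · exfalso
              rw [ha', hb'] at he
              exact hBad2 _ hqBad _ ha _ hb he.symm
            · exfalso
              rw [ha'] at he
              exact hBad1 _ hqBad _ ha _ hb _ hb' (eq_sub_of_add_eq he.symm)
            · exfalso
              rw [hb'] at he
              exact hBad1 _ hqBad _ ha _ hb _ ha' (eq_sub_of_add_eq' he.symm)
            · rw [hp1X a ha, hp1X b hb, hp1X a' ha', hp1X b' hb']
              exact hF a ha b hb a' ha' b' hb' he
          · intro X' p2 hX' hp2 hc2 hY2 hF2
            have hp2X := mem_Ext.mp hp2
            apply h X' p2 (fun g hg => hX' (mem_insert_of_mem hg))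
            · rw [mem_Ext]
              intro g hg
              rw [hp2X g (mem_insert_of_mem hg), hp1X g hg]
            · rw [card_insert_of_notMem hqX] at hc2
              omega
            · intro y' hy'
              rcases List.mem_cons.mp hy' with rfl | hy'
              · have h5 : p2.symm y' = q.1 := by
                  rw [Equiv.symm_apply_eq, hp2X q.1 (mem_insert_self _ _), hp1q, hqy]
                rw [h5]
                exact hX' (mem_insert_self _ _)
              · exact hY2 y' hy'
            · exact hF2)
      refine le_trans ?_ hrev
      rw [hIcard]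
      have hNpos : (0 : ℝ) < Fintype.card G := by
        exact_mod_cast Fintype.card_pos
      have hhalf : (1 / 2 : ℝ) ≤ (B.card : ℝ) / Fintype.card G := by
        rw [le_div_iff₀ hNpos]
        have : (Fintype.card G : ℝ) ≤ 2 * (B.card : ℝ) := by exact_mod_cast hBcard
        linarith
      calc c * (1 / 2) ^ (Y.length + 1) * ((Ext X p0).card : ℝ)
          = (1 / 2) * (c * (1 / 2) ^ Y.length * ((Ext X p0).card : ℝ)) := by
            rw [pow_succ]; ring
        _ ≤ (B.card : ℝ) / Fintype.card G * (c * (1 / 2) ^ Y.length * ((Ext X p0).card : ℝ)) := by
            apply mul_le_mul_of_nonneg_right hhalf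
            positivity

end

section
variable {G : Type*} [Fintype G] [DecidableEq G]

theorem card_cube (k : ℕ) (J : Finset (Fin k)) (w : Fin k → Bool) :
    (univ.filter (fun v : Fin k → Bool => ∀ j ∈ J, v j = w j)).card * 2 ^ J.card = 2 ^ k := by
  classical
  have h1 : (univ.filter (fun v : Fin k → Bool => ∀ j ∈ J, v j = w j)) =
      Fintype.piFinset (fun j => if j ∈ J then {w j} else (univ : Finset Bool)) := by
    ext v
    simp only [mem_filter, mem_univ, true_and, Fintype.mem_piFinset]
    constructor
    · intro h j
      by_cases hj : j ∈ J
      · simp [hj, h j hj]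
      · simp [hj]
    · intro h j hj
      have := h j
      simpa [hj] using this
  rw [h1, Fintype.card_piFinset]
  have h2 : ∀ j, (if j ∈ J then ({w j} : Finset Bool) else univ).card = if j ∈ J then 1 else 2 := by
    intro j
    by_cases hj : j ∈ J <;> simp [hj]
  simp_rw [h2]
  rw [Finset.prod_ite]
  simp only [prod_const_one, prod_const, one_mul]
  rw [← pow_add]
  congr 1
  have h3 : (univ.filter (fun j : Fin k => j ∉ J)).card = k - J.card := by
    have : (univ.filter (fun j : Fin k => j ∉ J)) = univ \ J := by
      ext j; simp
    rw [this, Finset.card_sdiff_of_subset (subset_univ _)]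
    simp
  rw [h3]
  have h4 : J.card ≤ k := by
    have := Finset.card_le_univ J
    simpa using this
  omega

theorem phase2 (k : ℕ) (hG : Fintype.card G = 2 ^ k) (zs : G → (Fin k → Bool)) :
    ∀ (n : ℕ) (X : Finset G) (p0 : G ≃ (Fin k → Bool)) (D : Finset (G × Fin k)),
    D.card ≤ n → (X.card + D.card) * 2 ^ (D.card + 1) ≤ 2 ^ k →
    (∀ q ∈ D, q.1 ∈ X → p0 q.1 q.2 = zs q.1 q.2) →
    (1 / 4 : ℝ) ^ D.card * ((Ext X p0).card : ℝ) ≤
      (((Ext X p0).filter (fun p => ∀ q ∈ D, p q.1 q.2 = zs q.1 q.2)).card : ℝ) := by
  classical
  intro n
  induction n with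
  | zero =>
    intro X p0 D hD _ _
    have : D = ∅ := Finset.card_eq_zero.mp (by omega)
    subst this
    simp
  | succ n ih =>
    intro X p0 D hD hsz hcon
    by_cases hall : ∀ q ∈ D, q.1 ∈ X
    · have : (Ext X p0).filter (fun p => ∀ q ∈ D, p q.1 q.2 = zs q.1 q.2) = Ext X p0 := by
        apply Finset.filter_true_of_mem
        intro p hp q hq
        rw [mem_Ext.mp hp q.1 (hall q hq)]
        exact hcon q hq (hall q hq)
      rw [this]
      have h1 : (1 / 4 : ℝ) ^ D.card ≤ 1 := pow_le_one₀ (by norm_num) (by norm_num)
      have h2 : (0 : ℝ) ≤ ((Ext X p0).card : ℝ) := by positivity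
      nlinarith
    · push Not at hall
      obtain ⟨q0, hq0, hq0X⟩ := hall
      set e := q0.1 with he
      set D1 := D.filter (fun q => q.1 = e) with hD1
      set D2 := D.filter (fun q => ¬ q.1 = e) with hD2
      have hD12 : D1.card + D2.card = D.card := by
        rw [hD1, hD2]
        exact Finset.card_filter_add_card_filter_not _
      have hn1 : 1 ≤ D1.card := by
        apply Finset.card_pos.mpr
        exact ⟨q0, by simp [hD1, hq0, he]⟩
      let J : Finset (Fin k) := D1.image Prod.snd
      have hJ : J.card = D1.card := by
        apply Finset.card_image_of_injOn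
        intro a ha b hb hab
        simp only [hD1, coe_filter, Set.mem_ofPred_eq] at ha hb
        exact Prod.ext (ha.2.trans hb.2.symm) hab
      let C : Finset (Fin k → Bool) := univ.filter (fun v => ∀ j ∈ J, v j = zs e j)
      have hC : C.card * 2 ^ D1.card = 2 ^ k := by
        rw [← hJ]
        exact card_cube k J (zs e)
      let B : Finset (Fin k → Bool) := C \ X.image p0
      have hBcard : 2 ^ k ≤ B.card * 2 ^ (D1.card + 1) := by
        have h1 : C.card ≤ B.card + X.card := by
          have h2 : C.card ≤ B.card + (X.image p0).card := by
            have := Finset.le_card_sdiff (X.image p0) C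
            simp only [B]
            omega
          exact le_trans h2 (Nat.add_le_add_left Finset.card_image_le _)
        have h3 : X.card * 2 ^ (D1.card + 1) ≤ 2 ^ k := by
          refine le_trans ?_ hsz
          apply Nat.mul_le_mul (by omega)
          apply Nat.pow_le_pow_right (by norm_num)
          omega
        have h4 : 2 * 2 ^ k ≤ (B.card + X.card) * 2 ^ (D1.card + 1) := by
          calc 2 * 2 ^ k = C.card * 2 ^ (D1.card + 1) := by rw [← hC, pow_succ]; ring
            _ ≤ (B.card + X.card) * 2 ^ (D1.card + 1) := Nat.mul_le_mul_right _ h1
        have h5 : (B.card + X.card) * 2 ^ (D1.card + 1) =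
          B.card * 2 ^ (D1.card + 1) + X.card * 2 ^ (D1.card + 1) := by ring
        omega
      let I : Finset (G × (Fin k → Bool)) := B.image (fun v => (e, v))
      have hIcard : I.card = B.card := by
        apply Finset.card_image_of_injective
        intro a b hab
        exact (Prod.mk.inj hab).2
      have hImem : ∀ q ∈ I, q.1 = e ∧ q.2 ∈ B := by
        intro q hq
        rw [mem_image] at hq
        obtain ⟨u, hu, rfl⟩ := hq
        exact ⟨rfl, hu⟩
      have hrev := reveal X p0 I (by
          intro q hq
          obtain ⟨h1, h2⟩ := hImem q hq
          refine ⟨by rw [h1]; exact hq0X, ?_⟩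
          intro g hg hge
          simp only [B, mem_sdiff, mem_image, not_exists, not_and] at h2
          exact h2.2 g hg hge)
        (by
          intro q hq q' hq' _
          left
          rw [(hImem q hq).1, (hImem q' hq').1])
        (fun p => ∀ q ∈ D, p q.1 q.2 = zs q.1 q.2) ((1 / 4 : ℝ) ^ D2.card) (by positivity)
        (by
          intro q hq p1 hp1 hp1q
          obtain ⟨hqe, hqB⟩ := hImem q hq
          rw [hqe] at hp1q ⊢
          have hp1X := mem_Ext.mp hp1
          have h1 := ih (insert e X) p1 D2 (by omega) (by
              rw [card_insert_of_notMem hq0X]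
              refine le_trans ?_ hsz
              apply Nat.mul_le_mul (by omega)
              apply Nat.pow_le_pow_right (by norm_num)
              omega)
            (by
              intro q' hq' hq'X
              simp only [hD2, mem_filter] at hq'
              rw [mem_insert] at hq'X
              rcases hq'X with h | h
              · exact absurd h hq'.2
              · rw [hp1X _ h]
                exact hcon q' hq'.1 h)
          refine le_trans h1 ?_
          have hsub : ((Ext (insert e X) p1).filter (fun p => ∀ q ∈ D2, p q.1 q.2 = zs q.1 q.2)) ⊆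
              ((Ext (insert e X) p1).filter (fun p => ∀ q ∈ D, p q.1 q.2 = zs q.1 q.2)) := by
            intro p hp
            rw [mem_filter] at hp ⊢
            refine ⟨hp.1, ?_⟩
            intro q' hq'
            by_cases hq'e : q'.1 = e
            · have h2 : p q'.1 = q.2 := by
                rw [hq'e, mem_Ext.mp hp.1 e (mem_insert_self _ _), hp1q]
              rw [h2, hq'e]
              simp only [B, C, mem_sdiff, mem_filter, mem_univ, true_and] at hqB
              apply hqB.1
              rw [mem_image]
              exact ⟨q', by simp [hD1, hq', hq'e], rfl⟩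
            · exact hp.2 q' (by simp [hD2, hq', hq'e])
          exact_mod_cast Finset.card_le_card hsub)
      refine le_trans ?_ hrev
      rw [hIcard, hG]
      have h6 : (1 / 4 : ℝ) ^ D1.card ≤ (B.card : ℝ) / ((2 ^ k : ℕ) : ℝ) := by
        have h7 : (0 : ℝ) < ((2 ^ k : ℕ) : ℝ) := by positivity
        rw [le_div_iff₀ h7]
        have h8 : ((2 ^ k : ℕ) : ℝ) ≤ (B.card : ℝ) * 2 ^ (D1.card + 1) := by exact_mod_cast hBcard
        have h9 : (2 : ℝ) ^ (D1.card + 1) ≤ 4 ^ D1.card := by
          have : (4 : ℝ) ^ D1.card = 2 ^ (2 * D1.card) := by
            rw [pow_mul]; norm_num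
          rw [this]
          apply pow_le_pow_right₀ (by norm_num)
          omega
        have h10 : (0 : ℝ) < 4 ^ D1.card := by positivity
        have h11 : (1 / 4 : ℝ) ^ D1.card = 1 / 4 ^ D1.card := by
          rw [one_div, one_div, inv_pow]
        rw [h11, div_mul_eq_mul_div, one_mul, div_le_iff₀ h10]
        refine le_trans h8 ?_
        apply mul_le_mul_of_nonneg_left h9
        positivity
      calc (1 / 4 : ℝ) ^ D.card * ((Ext X p0).card : ℝ)
          = (1 / 4 : ℝ) ^ D1.card * ((1 / 4 : ℝ) ^ D2.card * ((Ext X p0).card : ℝ)) := by
            rw [← hD12, pow_add]; ring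
        _ ≤ (B.card : ℝ) / ((2 ^ k : ℕ) : ℝ) *
            ((1 / 4 : ℝ) ^ D2.card * ((Ext X p0).card : ℝ)) := by
            apply mul_le_mul_of_nonneg_right h6
            positivity

end

end Pool.Agent.H54.GpI
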