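import Pool.Agent.H.MP_c695c6_lc.helper54.Phases

namespace Pool.Agent.H54.GpI

open Finset

section
variable {G : Type*} [Fintype G] [DecidableEq G] [AddCommGroup G]

/-- Any `d` bits of the table of a random labeling agree with those of a fixed table `R`
with probability at least `16^(-d)`, provided `R` is compatible with what has been revealed. -/
theorem agree (k : ℕ) (hG : Fintype.card G = 2 ^ k) (o : Fin k → Bool)
    (R : (Fin k → Bool) → (Fin k → Bool) → (Fin k → Bool))
    (hR : ∀ x y, R x y = R y x) (hRo : ∀ x, R x o = x) (s M : ℕ)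
    (hs : ∀ g : G, (univ.filter (fun u : G => u + u = g)).card ≤ s)
    (hM : 2 * (M ^ 3 + M ^ 2 * s) ≤ Fintype.card G)
    (X : Finset G) (p0 : G ≃ (Fin k → Bool)) (h0 : (0 : G) ∈ X) (hp0 : p0 0 = o)
    (hF : Freiman R X p0) (D : Finset ((Fin k → Bool) × (Fin k → Bool) × Fin k)) (d : ℕ)
    (hD : D.card ≤ d) (hMX : X.card + 2 * d ≤ M) (hM2 : (M + d) * 2 ^ (d + 1) ≤ 2 ^ k) :
    (1 / 16 : ℝ) ^ d * ((Ext X p0).card : ℝ) ≤
      (((Ext X p0).filter (fun p => ∀ q ∈ D, tab p q.1 q.2.1 q.2.2 = R q.1 q.2.1 q.2.2)).card : ℝ) := by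
  classical
  let Y : List (Fin k → Bool) := D.toList.map (fun q => q.1) ++ D.toList.map (fun q => q.2.1)
  have hY : Y.length = 2 * D.card := by
    simp [Y]; ring
  have hYx : ∀ q ∈ D, q.1 ∈ Y := by
    intro q hq
    apply List.mem_append_left
    rw [List.mem_map]
    exact ⟨q, by simpa using hq, rfl⟩
  have hYy : ∀ q ∈ D, q.2.1 ∈ Y := by
    intro q hq
    apply List.mem_append_right
    rw [List.mem_map]
    exact ⟨q, by simpa using hq, rfl⟩
  have h1 := phase1 R hR s M hs hM
    (fun p => ∀ q ∈ D, tab p q.1 q.2.1 q.2.2 = R q.1 q.2.1 q.2.2) ((1 / 4 : ℝ) ^ d)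
    (by positivity) Y X p0 (by omega) hF (by
      intro X' p1 hX hp1 hc1 hY1 hF1
      have h01 : (0 : G) ∈ X' := hX h0
      have hp10 : p1 0 = o := by rw [mem_Ext.mp hp1 0 h0, hp0]
      let zs : G → (Fin k → Bool) := fun e =>
        if h : ∃ ab : G × G, ab.1 ∈ X' ∧ ab.2 ∈ X' ∧ ab.1 + ab.2 = e then
          R (p1 h.choose.1) (p1 h.choose.2) else o
      have hzs : ∀ a ∈ X', ∀ b ∈ X', zs (a + b) = R (p1 a) (p1 b) := by
        intro a ha b hb
        have h : ∃ ab : G × G, ab.1 ∈ X' ∧ ab.2 ∈ X' ∧ ab.1 + ab.2 = a + b :=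
          ⟨(a, b), ha, hb, rfl⟩
        have h2 : zs (a + b) = R (p1 h.choose.1) (p1 h.choose.2) := by
          simp only [zs]
          rw [dif_pos h]
        rw [h2]
        exact hF1 _ h.choose_spec.1 _ h.choose_spec.2.1 _ ha _ hb h.choose_spec.2.2
      let D' : Finset (G × Fin k) := D.image (fun q => (p1.symm q.1 + p1.symm q.2.1, q.2.2))
      have hD' : D'.card ≤ d := le_trans Finset.card_image_le hD
      have h2 := phase2 k hG zs D'.card X' p1 D' le_rfl (by
          refine le_trans ?_ hM2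
          apply Nat.mul_le_mul (by omega)
          apply Nat.pow_le_pow_right (by norm_num)
          omega)
        (by
          intro q hq hqX
          rw [mem_image] at hq
          obtain ⟨q', hq', rfl⟩ := hq
          simp only at hqX ⊢
          have ha := hY1 q'.1 (hYx q' hq')
          have hb := hY1 q'.2.1 (hYy q' hq')
          rw [hzs _ ha _ hb]
          have h3 := hF1 _ ha _ hb _ hqX _ h01 (by simp)
          rw [h3, hp10, hRo])
      have h3 : ((Ext X' p1).filter (fun p => ∀ q ∈ D', p q.1 q.2 = zs q.1 q.2)) ⊆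
          ((Ext X' p1).filter (fun p => ∀ q ∈ D, tab p q.1 q.2.1 q.2.2 = R q.1 q.2.1 q.2.2)) := by
        intro p hp
        rw [mem_filter] at hp ⊢
        refine ⟨hp.1, ?_⟩
        intro q hq
        have ha := hY1 q.1 (hYx q hq)
        have hb := hY1 q.2.1 (hYy q hq)
        have hpX := mem_Ext.mp hp.1
        have e1 : p.symm q.1 = p1.symm q.1 := by
          rw [Equiv.symm_apply_eq, hpX _ ha]; simp
        have e2 : p.symm q.2.1 = p1.symm q.2.1 := by
          rw [Equiv.symm_apply_eq, hpX _ hb]; simp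
        have h4 := hp.2 (p1.symm q.1 + p1.symm q.2.1, q.2.2) (by
          rw [mem_image]; exact ⟨q, hq, rfl⟩)
        simp only at h4
        rw [hzs _ ha _ hb] at h4
        simp only [Equiv.apply_symm_apply] at h4
        simp only [tab]
        rw [e1, e2]
        exact h4
      have h5 : (((Ext X' p1).filter (fun p => ∀ q ∈ D', p q.1 q.2 = zs q.1 q.2)).card : ℝ) ≤
          (((Ext X' p1).filter (fun p => ∀ q ∈ D, tab p q.1 q.2.1 q.2.2 =
            R q.1 q.2.1 q.2.2)).card : ℝ) := by
        exact_mod_cast Finset.card_le_card h3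
      refine le_trans ?_ (h2.trans h5)
      apply mul_le_mul_of_nonneg_right _ (by positivity)
      exact pow_le_pow_of_le_one (by norm_num) (by norm_num) hD')
  refine le_trans ?_ h1
  apply mul_le_mul_of_nonneg_right _ (by positivity)
  rw [hY]
  have h6 : (1 / 16 : ℝ) ^ d = (1 / 4) ^ d * (1 / 2) ^ (2 * d) := by
    rw [pow_mul, ← mul_pow]; norm_num
  rw [h6]
  apply mul_le_mul_of_nonneg_left _ (by positivity)
  exact pow_le_pow_of_le_one (by norm_num) (by norm_num) (by omega)

/-- The elements revealed by a labeling `p` when the table entries listed in `D` are read. -/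
def Rev {k : ℕ} (X : Finset G) (D : Finset ((Fin k → Bool) × (Fin k → Bool) × Fin k))
    (p : G ≃ (Fin k → Bool)) : Finset G :=
  X ∪ (D.image (fun q => p.symm q.1) ∪
    (D.image (fun q => p.symm q.2.1) ∪ D.image (fun q => p.symm q.1 + p.symm q.2.1)))

theorem Rev_card {k : ℕ} (X : Finset G) (D : Finset ((Fin k → Bool) × (Fin k → Bool) × Fin k))
    (p : G ≃ (Fin k → Bool)) : (Rev X D p).card ≤ X.card + 3 * D.card := by
  unfold Rev
  have h1 := Finset.card_union_le X (D.image (fun q => p.symm q.1) ∪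
    (D.image (fun q => p.symm q.2.1) ∪ D.image (fun q => p.symm q.1 + p.symm q.2.1)))
  have h2 := Finset.card_union_le (D.image (fun q => p.symm q.1))
    (D.image (fun q => p.symm q.2.1) ∪ D.image (fun q => p.symm q.1 + p.symm q.2.1))
  have h3 := Finset.card_union_le (D.image (fun q => p.symm q.2.1))
    (D.image (fun q => p.symm q.1 + p.symm q.2.1))
  have h4 : (D.image (fun q => p.symm q.1)).card ≤ D.card := Finset.card_image_le
  have h5 : (D.image (fun q => p.symm q.2.1)).card ≤ D.card := Finset.card_image_le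
  have h6 : (D.image (fun q => p.symm q.1 + p.symm q.2.1)).card ≤ D.card :=
    Finset.card_image_le
  omega

theorem Rev_sub {k : ℕ} (X : Finset G) (D : Finset ((Fin k → Bool) × (Fin k → Bool) × Fin k))
    (p : G ≃ (Fin k → Bool)) : X ⊆ Rev X D p := Finset.subset_union_left

theorem Rev_mem {k : ℕ} (X : Finset G) (D : Finset ((Fin k → Bool) × (Fin k → Bool) × Fin k))
    (p : G ≃ (Fin k → Bool)) (q) (hq : q ∈ D) :
    p.symm q.1 ∈ Rev X D p ∧ p.symm q.2.1 ∈ Rev X D p ∧
      p.symm q.1 + p.symm q.2.1 ∈ Rev X D p := by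
  unfold Rev
  refine ⟨?_, ?_, ?_⟩
  · apply mem_union_right
    apply mem_union_left
    rw [mem_image]
    exact ⟨q, hq, rfl⟩
  · apply mem_union_right
    apply mem_union_right
    apply mem_union_left
    rw [mem_image]
    exact ⟨q, hq, rfl⟩
  · apply mem_union_right
    apply mem_union_right
    apply mem_union_right
    rw [mem_image]
    exact ⟨q, hq, rfl⟩

theorem Rev_congr {k : ℕ} (X : Finset G) (D : Finset ((Fin k → Bool) × (Fin k → Bool) × Fin k))
    (p p1 : G ≃ (Fin k → Bool)) (h : ∀ g ∈ Rev X D p1, p g = p1 g) :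
    (∀ q ∈ D, p.symm q.1 = p1.symm q.1 ∧ p.symm q.2.1 = p1.symm q.2.1) ∧
      Rev X D p = Rev X D p1 := by
  have h1 : ∀ q ∈ D, p.symm q.1 = p1.symm q.1 ∧ p.symm q.2.1 = p1.symm q.2.1 := by
    intro q hq
    obtain ⟨m1, m2, _⟩ := Rev_mem X D p1 q hq
    constructor
    · rw [Equiv.symm_apply_eq, h _ m1]; simp
    · rw [Equiv.symm_apply_eq, h _ m2]; simp
  refine ⟨h1, ?_⟩
  unfold Rev
  have e1 : D.image (fun q => p.symm q.1) = D.image (fun q => p1.symm q.1) := by
    apply Finset.image_congr
    intro q hq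
    exact (h1 q hq).1
  have e2 : D.image (fun q => p.symm q.2.1) = D.image (fun q => p1.symm q.2.1) := by
    apply Finset.image_congr
    intro q hq
    exact (h1 q hq).2
  have e3 : D.image (fun q => p.symm q.1 + p.symm q.2.1) =
      D.image (fun q => p1.symm q.1 + p1.symm q.2.1) := by
    apply Finset.image_congr
    intro q hq
    have := h1 q hq
    simp only
    rw [this.1, this.2]
  rw [e1, e2, e3]

/-- The main induction: if no labeling of `G'` satisfies the family `F` of `d`-local predicates,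
then few labelings of `G` do. -/
theorem rounds {G' : Type*} [Fintype G'] [DecidableEq G'] [AddCommGroup G']
    (k : ℕ) (hG : Fintype.card G = 2 ^ k) (hG' : Fintype.card G' = 2 ^ k)
    (o : Fin k → Bool) (s M d : ℕ)
    (hs : ∀ g : G, (univ.filter (fun u : G => u + u = g)).card ≤ s)
    (hM : 2 * (M ^ 3 + M ^ 2 * s) ≤ Fintype.card G)
    (hM2 : (M + d) * 2 ^ (d + 1) ≤ 2 ^ k)
    (hEmb : ∀ X : Finset G, X.card ≤ M → ∃ φ : G →+ G', Set.InjOn φ (X : Set G))
    (F : Set (((Fin k → Bool) → (Fin k → Bool) → (Fin k → Bool)) → Prop))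
    (hF : ∀ g ∈ F, ∃ D : Finset ((Fin k → Bool) × (Fin k → Bool) × Fin k), D.card ≤ d ∧
      ∀ T T' : (Fin k → Bool) → (Fin k → Bool) → (Fin k → Bool),
        (∀ q ∈ D, T q.1 q.2.1 q.2.2 = T' q.1 q.2.1 q.2.2) → (g T ↔ g T'))
    (hno : ∀ σ : G' ≃ (Fin k → Bool), σ 0 = o → ∃ g ∈ F, ¬ g (tab σ))
    [DecidablePred (fun p : G ≃ (Fin k → Bool) => ∀ g ∈ F, g (tab p))] :
    ∀ (t : ℕ) (X : Finset G) (p0 : G ≃ (Fin k → Bool)), (0 : G) ∈ X → p0 0 = o →
      X.card + 3 * d * t ≤ M →
      (((Ext X p0).filter (fun p => ∀ g ∈ F, g (tab p))).card : ℝ) ≤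
        (1 - (1 / 16 : ℝ) ^ d) ^ t * ((Ext X p0).card : ℝ) := by
  classical
  intro t
  induction t with
  | zero =>
    intro X p0 _ _ _
    simp only [pow_zero, one_mul]
    exact_mod_cast Finset.card_filter_le _ _
  | succ t ih =>
    intro X p0 h0 hp0 hsz
    have hsz' : X.card + 3 * d + 3 * d * t ≤ M := by
      have : 3 * d * (t + 1) = 3 * d + 3 * d * t := by ring
      omega
    -- the twisted labeling
    obtain ⟨φ, hφ⟩ := hEmb X (by omega)
    obtain ⟨σ', hσ'⟩ := Finset.exists_equiv_extend_of_card_eq (α := Fin k → Bool) (β := G')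
      (t := (univ : Finset G')) (by rw [Finset.card_univ, hG']; simp) (s := X.image p0)
      (f := fun v => φ (p0.symm v)) (Finset.subset_univ _) (by
        intro a ha b hb hab
        simp only [coe_image, Set.mem_image, mem_coe] at ha hb
        obtain ⟨a', ha', rfl⟩ := ha
        obtain ⟨b', hb', rfl⟩ := hb
        simp only [Equiv.symm_apply_apply] at hab
        rw [hφ ha' hb' hab])
    let σ : G' ≃ (Fin k → Bool) :=
      ((σ'.trans (Equiv.subtypeUnivEquiv (fun x => Finset.mem_univ x)))).symm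
    have hσ : ∀ g ∈ X, σ (φ g) = p0 g := by
      intro g hg
      have h1 := hσ' (p0 g) (mem_image_of_mem _ hg)
      simp only [Equiv.symm_apply_apply] at h1
      simp only [σ]
      rw [Equiv.symm_apply_eq]
      simp only [Equiv.trans_apply]
      rw [← h1]
      rfl
    have hσs : ∀ g ∈ X, σ.symm (p0 g) = φ g := by
      intro g hg
      rw [Equiv.symm_apply_eq, hσ g hg]
    have hσ0 : σ 0 = o := by
      have := hσ 0 h0
      rw [map_zero, hp0] at this
      exact this
    obtain ⟨g0, hg0F, hg0⟩ := hno σ hσ0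
    obtain ⟨D, hD, hDg⟩ := hF g0 hg0F
    have hFr : Freiman (tab σ) X p0 := by
      intro a ha b hb a' ha' b' hb' he
      simp only [tab]
      rw [hσs a ha, hσs b hb, hσs a' ha', hσs b' hb', ← map_add, ← map_add, he]
    have hag := agree k hG o (tab σ) (by
        intro x y
        simp only [tab]
        rw [add_comm])
      (by
        intro x
        simp only [tab]
        have : σ.symm o = 0 := by rw [← hσ0]; simp
        rw [this, add_zero]; simp) s M hs hM X p0 h0 hp0 hFr D d hD (by omega) hM2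
    set Qp : (G ≃ (Fin k → Bool)) → Prop :=
      fun p => ∀ q ∈ D, tab p q.1 q.2.1 q.2.2 = tab σ q.1 q.2.1 q.2.2 with hQp
    -- the complement
    let U : Finset (G ≃ (Fin k → Bool)) := (Ext X p0).filter (fun p => ¬ Qp p)
    have hUcard : (U.card : ℝ) ≤ (1 - (1 / 16 : ℝ) ^ d) * ((Ext X p0).card : ℝ) := by
      have h1 : ((Ext X p0).filter Qp).card + U.card = (Ext X p0).card :=
        Finset.card_filter_add_card_filter_not _
      have h2 : (((Ext X p0).filter Qp).card : ℝ) + (U.card : ℝ) = ((Ext X p0).card : ℝ) := by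
        exact_mod_cast h1
      linarith
    let κ : (G ≃ (Fin k → Bool)) → (G → Option (Fin k → Bool)) :=
      fun p g => if g ∈ Rev X D p then some (p g) else none
    have hfib : ∀ p1 ∈ U, U.filter (fun p => κ p = κ p1) = Ext (Rev X D p1) p1 := by
      intro p1 hp1
      have hp1' := (mem_filter.mp hp1)
      ext p
      rw [mem_filter, mem_Ext]
      constructor
      · rintro ⟨_, h⟩ g hg
        have h1 := congrFun h g
        simp only [κ] at h1
        rw [if_pos hg] at h1
        by_cases hgp : g ∈ Rev X D p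
        · rw [if_pos hgp] at h1
          exact Option.some.inj h1
        · rw [if_neg hgp] at h1
          exact absurd h1 (by simp)
      · intro h
        obtain ⟨e1, e2⟩ := Rev_congr X D p p1 h
        have hpE : p ∈ Ext X p0 := by
          rw [mem_Ext]
          intro g hg
          rw [h g (Rev_sub X D p1 hg)]
          exact mem_Ext.mp hp1'.1 g hg
        refine ⟨mem_filter.mpr ⟨hpE, ?_⟩, ?_⟩
        · intro hq
          apply hp1'.2
          intro q hqD
          rw [← hq q hqD]
          simp only [tab]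
          rw [(e1 q hqD).1, (e1 q hqD).2, h _ (Rev_mem X D p1 q hqD).2.2]
        · funext g
          simp only [κ]
          rw [e2]
          by_cases hg : g ∈ Rev X D p1
          · rw [if_pos hg, if_pos hg, h g hg]
          · rw [if_neg hg, if_neg hg]
    have hfb := fiber_bound U κ (fun p => ∀ g ∈ F, g (tab p)) ((1 - (1 / 16 : ℝ) ^ d) ^ t) (by
      intro p1 hp1
      rw [hfib p1 hp1]
      have hp1' := (mem_filter.mp hp1)
      apply ih
      · exact Rev_sub X D p1 h0
      · rw [mem_Ext.mp hp1'.1 0 h0, hp0]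
      · have := Rev_card X D p1
        have h3 : 3 * D.card ≤ 3 * d := by omega
        omega)
    have hsub : (Ext X p0).filter (fun p => ∀ g ∈ F, g (tab p)) ⊆
        U.filter (fun p => ∀ g ∈ F, g (tab p)) := by
      intro p hp
      rw [mem_filter] at hp ⊢
      refine ⟨mem_filter.mpr ⟨hp.1, ?_⟩, hp.2⟩
      intro hq
      apply hg0
      rw [← hDg (tab p) (tab σ) hq]
      exact hp.2 g0 hg0F
    have h5 : (((Ext X p0).filter (fun p => ∀ g ∈ F, g (tab p))).card : ℝ) ≤
        ((U.filter (fun p => ∀ g ∈ F, g (tab p))).card : ℝ) := by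
      exact_mod_cast Finset.card_le_card hsub
    have h6 : (0 : ℝ) ≤ (1 - (1 / 16 : ℝ) ^ d) ^ t := by
      apply pow_nonneg
      have : (1 / 16 : ℝ) ^ d ≤ 1 := pow_le_one₀ (by norm_num) (by norm_num)
      linarith
    calc (((Ext X p0).filter (fun p => ∀ g ∈ F, g (tab p))).card : ℝ)
        ≤ (1 - (1 / 16 : ℝ) ^ d) ^ t * (U.card : ℝ) := h5.trans hfb
      _ ≤ (1 - (1 / 16 : ℝ) ^ d) ^ t * ((1 - (1 / 16 : ℝ) ^ d) * ((Ext X p0).card : ℝ)) :=
          mul_le_mul_of_nonneg_left hUcard h6
      _ = (1 - (1 / 16 : ℝ) ^ d) ^ (t + 1) * ((Ext X p0).card : ℝ) := by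
          rw [pow_succ]; ring

end

end Pool.Agent.H54.GpI
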